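import Pool.Agent.W844.GP.Defs2
import Pool.Agent.W924.GP.IND

/-!
# GQ-COND: conditional independence of the size given the set of closed vertices
-/

set_option autoImplicit false

open Finset MeasureTheory ProbabilityTheory Filter Topology
open scoped ENNReal

namespace Pool.Agent.W18.GQ

open Pool.Agent.W844.VG (V stp nm)
open Pool.Agent.W844.GP

theorem law_inter {d : ℕ} (ν : Measure ℝ) [IsProbabilityMeasure ν] (F : Finset (V d))
    (B : Set (V d → ℝ)) (hB : MeasurableSet B)
    (hdep : DependsOn (fun w => w ∈ B) ((F : Set (V d))ᶜ)) (s : ℝ) :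
    law ν d (B ∩ {w | ∀ v ∈ F, w v < -s}) = law ν d B * ν (Set.Iio (-s)) ^ F.card := by
  have hE : MeasurableSet {w : V d → ℝ | ∀ v ∈ F, w v < -s} := by
    have : {w : V d → ℝ | ∀ v ∈ F, w v < -s} = ⋂ v ∈ F, {w | w v < -s} := by
      ext w
      simp
    rw [this]
    exact Finset.measurableSet_biInter _ fun v _ =>
      measurableSet_lt (measurable_pi_apply v) measurable_const
  have hI := Pool.Agent.W924.GP.T_IND d ν Prop Prop (fun w => w ∈ B)
    (fun w => w ∈ {w : V d → ℝ | ∀ v ∈ F, w v < -s})
    ((F : Set (V d))ᶜ) F (measurable_mem.2 hB) (measurable_mem.2 hE) hdep (by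
      intro w w' hw
      simp only [Set.mem_ofPred_eq, eq_iff_iff]
      refine forall₂_congr fun v hv => ?_
      rw [hw v hv]) disjoint_compl_left
  have h1 := hI.measure_inter_preimage_eq_mul {True} {True} (measurableSet_singleton _)
      (measurableSet_singleton _)
  have e1 : (fun w => w ∈ B) ⁻¹' {True} = B := by ext w; simp
  have e2 : (fun w => w ∈ {w : V d → ℝ | ∀ v ∈ F, w v < -s}) ⁻¹' {True} =
    {w : V d → ℝ | ∀ v ∈ F, w v < -s} := by ext w; simp
  rw [e1, e2] at h1
  rw [h1]
  congr 1
  have h2 : {w : V d → ℝ | ∀ v ∈ F, w v < -s} = Set.pi (F : Set (V d)) (fun _ => Set.Iio (-s)) := by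
    ext w
    simp [Set.mem_pi]
  rw [h2]
  unfold law
  rw [Measure.infinitePi_pi _ (fun _ _ => measurableSet_Iio), prod_const]

theorem T_COND : S_COND := by
  intro d ν _ K s hKs F B hB hcl
  classical
  set m : (V d → ℝ) → (V d → ℝ) := fun w x => if x ∈ F then -K - 1 else w x with hm
  have hmm : Measurable m := by
    rw [hm]
    refine measurable_pi_lambda _ fun x => ?_
    by_cases hx : x ∈ F
    · simp only [hx, if_true]
      exact measurable_const
    · simp only [hx, if_false]
      exact measurable_pi_apply x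
  set B' : Set (V d → ℝ) := m ⁻¹' B with hB'
  have hB'm : MeasurableSet B' := hmm hB
  have hdep : DependsOn (fun w => w ∈ B') ((F : Set (V d))ᶜ) := by
    intro w w' hw
    have : m w = m w' := by
      ext x
      simp only [hm]
      split_ifs with hx
      · rfl
      · exact hw x hx
    show (m w ∈ B) = (m w' ∈ B)
    rw [this]
  have key : ∀ t : ℝ, K ≤ t → B ∩ {w | ∀ v ∈ F, w v < -t} = B' ∩ {w | ∀ v ∈ F, w v < -t} := by
    intro t ht
    ext w
    refine and_congr_left fun hw => ?_
    refine hcl w (m w) ?_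
    ext x
    unfold Cl
    simp only [Set.mem_ofPred_eq, hm]
    split_ifs with hx
    · have := hw x hx
      constructor
      · intro _
        linarith
      · intro _
        linarith
    · rfl
  have h1 := law_inter ν F B' hB'm hdep s
  have h2 := law_inter ν F B' hB'm hdep K
  rw [key s hKs, h1]
  calc law ν d B' * ν (Set.Iio (-s)) ^ F.card * ν (Set.Iio (-K)) ^ F.card
      = (law ν d B' * ν (Set.Iio (-K)) ^ F.card) * ν (Set.Iio (-s)) ^ F.card := by ring
    _ = law ν d (B ∩ {w | ∀ v ∈ F, w v < -K}) * ν (Set.Iio (-s)) ^ F.card := by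
        rw [key K le_rfl, h2]
    _ ≤ law ν d B * ν (Set.Iio (-s)) ^ F.card := by
        gcongr
        exact Set.inter_subset_left

end Pool.Agent.W18.GQ
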