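import Pool.Agent.W844.GP.Defs2

/-!
# GQ-D1: the one-dimensional counterexample
-/

set_option autoImplicit false

open Finset MeasureTheory ProbabilityTheory Filter Topology
open scoped ENNReal

namespace Pool.Agent.W18.GQ

open Pool.Agent.W844.VG (V stp nm)
open Pool.Agent.W844.GP

/-- law of `-1/U`, `U` uniform on `(0,1)` -/
noncomputable def nu : Measure ℝ := (volume.restrict (Set.Ioo (0 : ℝ) 1)).map (fun u => -u⁻¹)

theorem meas_f : Measurable (fun u : ℝ => -u⁻¹) := measurable_inv.neg

instance nu_prob : IsProbabilityMeasure nu := by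
  have : IsProbabilityMeasure ((volume : Measure ℝ).restrict (Set.Ioo (0 : ℝ) 1)) := by
    constructor
    simp
  exact Measure.isProbabilityMeasure_map meas_f.aemeasurable

theorem nu_pos : nu (Set.Ioi 0) = 0 := by
  unfold nu
  rw [Measure.map_apply meas_f measurableSet_Ioi, Measure.restrict_apply (meas_f measurableSet_Ioi)]
  have : (fun u : ℝ => -u⁻¹) ⁻¹' Set.Ioi 0 ∩ Set.Ioo 0 1 = ∅ := by
    ext u
    simp only [Set.mem_inter_iff, Set.mem_preimage, Set.mem_Ioi, Set.mem_Ioo, Set.mem_empty_iff_false,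
      iff_false]
    rintro ⟨h1, h2, -⟩
    have : 0 < u⁻¹ := inv_pos.2 h2
    linarith
  rw [this, measure_empty]

theorem nu_tail {t : ℝ} (ht : 0 < t) : nu (Set.Iio (-t)) ≤ ENNReal.ofReal (t⁻¹) := by
  unfold nu
  rw [Measure.map_apply meas_f measurableSet_Iio, Measure.restrict_apply (meas_f measurableSet_Iio)]
  have : (fun u : ℝ => -u⁻¹) ⁻¹' Set.Iio (-t) ∩ Set.Ioo 0 1 ⊆ Set.Ioo 0 t⁻¹ := by
    intro u
    simp only [Set.mem_inter_iff, Set.mem_preimage, Set.mem_Iio, Set.mem_Ioo]
    rintro ⟨h1, h2, -⟩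
    refine ⟨h2, ?_⟩
    rw [lt_inv_comm₀ h2 ht]
    linarith
  refine (measure_mono this).trans ?_
  rw [Real.volume_Ioo, sub_zero]

theorem nu_sq : ∫⁻ t in Set.Ioi (0 : ℝ), nu (Set.Iio (-t)) ^ 2 < ⊤ := by
  rw [← Set.Ioc_union_Ioi_eq_Ioi (zero_le_one' ℝ)]
  refine (lintegral_union_le _ _ _).trans_lt ?_
  rw [ENNReal.add_lt_top]
  constructor
  · calc ∫⁻ t in Set.Ioc (0 : ℝ) 1, nu (Set.Iio (-t)) ^ 2
        ≤ ∫⁻ t in Set.Ioc (0 : ℝ) 1, 1 := by
          refine lintegral_mono fun t => ?_
          exact pow_le_one' prob_le_one 2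
      _ < ⊤ := by simp
  · have h1 : IntegrableOn (fun t : ℝ => t ^ (-2 : ℝ)) (Set.Ioi 1) :=
      integrableOn_Ioi_rpow_of_lt (by norm_num) zero_lt_one
    calc ∫⁻ t in Set.Ioi (1 : ℝ), nu (Set.Iio (-t)) ^ 2
        ≤ ∫⁻ t in Set.Ioi (1 : ℝ), ENNReal.ofReal (t ^ (-2 : ℝ)) := by
          refine setLIntegral_mono' measurableSet_Ioi fun t ht => ?_
          have ht0 : (0 : ℝ) < t := lt_trans zero_lt_one ht
          have h2 := nu_tail ht0
          calc nu (Set.Iio (-t)) ^ 2 ≤ ENNReal.ofReal (t⁻¹) ^ 2 := by gcongr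
            _ = ENNReal.ofReal (t ^ (-2 : ℝ)) := by
              rw [← ENNReal.ofReal_pow (by positivity)]
              congr 1
              rw [Real.rpow_neg ht0.le]
              norm_num
      _ < ⊤ := by
          have := h1.lintegral_lt_top
          exact this

/-- truncated mean -/
theorem mean_le {L : ℝ} (hL : 1 ≤ L) : ∫ x, max x (-L) ∂nu ≤ -Real.log L := by
  unfold nu
  rw [integral_map meas_f.aemeasurable (by fun_prop)]
  have hL0 : 0 < L := lt_of_lt_of_le zero_lt_one hL
  have hsub : Set.Ioo (L⁻¹) 1 ⊆ Set.Ioo (0 : ℝ) 1 := Set.Ioo_subset_Ioo_left (by positivity)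
  have hint : IntegrableOn (fun u : ℝ => max (-u⁻¹) (-L)) (Set.Ioo 0 1) := by
    refine Integrable.of_bound (C := L) ?_ ?_
    · exact (meas_f.max measurable_const).aestronglyMeasurable
    · refine (ae_restrict_iff' measurableSet_Ioo).2 (Eventually.of_forall fun u hu => ?_)
      have : 0 < u⁻¹ := inv_pos.2 hu.1
      rw [Real.norm_eq_abs, abs_le]
      constructor
      · exact le_max_right _ _
      · exact max_le (by linarith) (by linarith)
  have h1 : ∫ u in Set.Ioo (0 : ℝ) 1, max (-u⁻¹) (-L) ≤ ∫ u in Set.Ioo (L⁻¹) 1, max (-u⁻¹) (-L) := by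
    have h2 : ∫ u in Set.Ioo (L⁻¹) 1, -max (-u⁻¹) (-L) ≤ ∫ u in Set.Ioo (0 : ℝ) 1, -max (-u⁻¹) (-L) := by
      apply setIntegral_mono_set hint.neg
      · refine (ae_restrict_iff' measurableSet_Ioo).2 (Eventually.of_forall fun u hu => ?_)
        have : 0 < u⁻¹ := inv_pos.2 hu.1
        have h3 : max (-u⁻¹) (-L) ≤ 0 := max_le (by linarith) (by linarith)
        show 0 ≤ -max (-u⁻¹) (-L)
        linarith
      · exact hsub.eventuallyLE
    rw [integral_neg, integral_neg] at h2
    linarith
  refine h1.trans (le_of_eq ?_)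
  have h2 : ∫ u in Set.Ioo (L⁻¹) 1, max (-u⁻¹) (-L) = ∫ u in Set.Ioo (L⁻¹) 1, -(u⁻¹) := by
    apply setIntegral_congr_fun measurableSet_Ioo
    intro u hu
    have h3 : L⁻¹ < u := hu.1
    have h4 : u⁻¹ < L := (inv_lt_comm₀ hL0 (lt_trans (by positivity) h3)).1 h3
    exact max_eq_left (by linarith)
  rw [h2, integral_neg, ← integral_Ioc_eq_integral_Ioo,
    ← intervalIntegral.integral_of_le (inv_le_one_of_one_le₀ hL),
    integral_inv_of_pos (by positivity) zero_lt_one]
  simp

/-- a straight line -/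
def ray (e : ℤ) (k : ℕ) : V 1 := fun _ => (k + 1) * e

theorem adj_one {x y : V 1} (h : adj x y) : y 0 = x 0 + 1 ∨ y 0 = x 0 - 1 := by
  unfold adj at h
  simp only [univ_unique, Fin.default_eq_zero, Fin.isValue, sum_singleton] at h
  rcases abs_eq (zero_le_one) |>.1 h with h | h <;> omega

theorem ext_one {x y : V 1} (h : x 0 = y 0) : x = y := by
  funext i
  rw [Subsingleton.elim i 0, h]

theorem path_wt (w : V 1 → ℝ) (e : ℤ) (l : List (V 1)) : ∀ (x y : V 1),
    List.IsChain adj (x :: y :: l) → (x :: y :: l).Nodup → y 0 = x 0 + e → (e = 1 ∨ e = -1) →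
    wt w (y :: l) = ∑ k ∈ range (l.length + 1), w (fun _ => x 0 + (k + 1) * e) := by
  induction l with
  | nil =>
    intro x y _ _ hxy _
    simp only [List.length_nil, zero_add, range_one, sum_singleton, wt_cons, wt_nil, add_zero]
    congr 1
    apply ext_one
    simp [hxy]
  | cons z l ih =>
    intro x y hc hn hxy he
    have hc' : List.IsChain adj (y :: z :: l) := by
      rw [List.isChain_cons_cons] at hc
      exact hc.2
    have hn' : (y :: z :: l).Nodup := (List.nodup_cons.1 hn).2
    have hyz : adj y z := by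
      rw [List.isChain_cons_cons] at hc'
      exact hc'.1
    have hxz : x ≠ z := by
      intro h
      have := (List.nodup_cons.1 hn).1
      apply this
      rw [h]
      simp
    have hz : z 0 = y 0 + e := by
      rcases adj_one hyz with h | h <;> rcases he with he | he
      · rw [he]; exact h
      · exfalso
        apply hxz
        apply ext_one
        omega
      · exfalso
        apply hxz
        apply ext_one
        omega
      · rw [he]; omega
    have h1 := ih y z hc' hn' hz he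
    rw [wt_cons, h1, List.length_cons, sum_range_succ' _ (l.length + 1), add_comm]
    congr 1
    · apply sum_congr rfl
      intro k _
      congr 1
      apply ext_one
      show y 0 + ((k : ℤ) + 1) * e = x 0 + (((k + 1 : ℕ) : ℤ) + 1) * e
      rw [hxy]
      push_cast
      ring
    · congr 1
      apply ext_one
      show y 0 = x 0 + (((0 : ℕ) : ℤ) + 1) * e
      rw [hxy]
      simp

theorem Lo_imp {w : V 1 → ℝ} {n : ℕ} {c : ℝ} (hn : 1 ≤ n) (h : Lo w n c) :
    c ≤ ∑ k ∈ range n, w (ray 1 k) ∨ c ≤ ∑ k ∈ range n, w (ray (-1) k) := by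
  obtain ⟨l, hl, ⟨hc, hnd⟩, hw⟩ := h
  rcases l with _ | ⟨y, l⟩
  · simp at hl
    omega
  · have h1 : adj 0 y := by
      rw [List.isChain_cons_cons] at hc
      exact hc.1
    simp only [List.length_cons] at hl
    rcases adj_one h1 with h2 | h2
    · left
      rw [path_wt w 1 l 0 y hc hnd (by simpa using h2) (Or.inl rfl), hl] at hw
      refine hw.trans (le_of_eq ?_)
      apply sum_congr rfl
      intro k _
      refine congrArg w (ext_one ?_)
      simp [ray]
    · right
      rw [path_wt w (-1) l 0 y hc hnd (by simpa using h2) (Or.inr rfl), hl] at hw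
      refine hw.trans (le_of_eq ?_)
      apply sum_congr rfl
      intro k _
      refine congrArg w (ext_one ?_)
      simp [ray]

theorem ray_inj {e : ℤ} (he : e = 1 ∨ e = -1) : Function.Injective (ray e) := by
  intro a b h
  have h1 := congrFun h 0
  simp only [ray] at h1
  rcases he with rfl | rfl <;> omega

theorem slln {e : ℤ} (he : e = 1 ∨ e = -1) (L : ℝ) (hL : 0 ≤ L) :
    ∀ᵐ w ∂law nu 1, Tendsto (fun n : ℕ => (∑ k ∈ range n, max (w (ray e k)) (-L)) / n) atTop
      (𝓝 (∫ x, max x (-L) ∂nu)) := by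
  have hid : ∀ k, IdentDistrib (fun w : V 1 → ℝ => w (ray e k)) id (law nu 1) nu := by
    intro k
    have := measurePreserving_eval_infinitePi (fun _ : V 1 => nu) (ray e k)
    refine ⟨(measurable_pi_apply _).aemeasurable, aemeasurable_id, ?_⟩
    rw [Measure.map_id]
    exact this.map_eq
  have hid2 : ∀ k, IdentDistrib (fun w : V 1 → ℝ => max (w (ray e k)) (-L)) (fun x => max x (-L))
      (law nu 1) nu := by
    intro k
    exact (hid k).comp (u := fun x => max x (-L)) (by fun_prop)
  have hae : ∀ᵐ x ∂nu, |max x (-L)| ≤ L := by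
    have h1 : ∀ᵐ x ∂nu, x ≤ 0 := by
      rw [ae_iff]
      have : {a : ℝ | ¬ a ≤ 0} = Set.Ioi 0 := by
        ext x
        simp
      rw [this]
      exact nu_pos
    filter_upwards [h1] with x hx
    rw [abs_le]
    exact ⟨le_max_right _ _, max_le (by linarith) (by linarith)⟩
  have hint : Integrable (fun x => max x (-L)) nu :=
    Integrable.of_bound (by fun_prop) L hae
  have h := strong_law_ae_real (μ := law nu 1) (fun k (w : V 1 → ℝ) => max (w (ray e k)) (-L))
    ((hid2 0).integrable_iff.2 hint) ?_ (fun k => (hid2 k).trans (hid2 0).symm)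
  · rw [(hid2 0).integral_eq] at h
    exact h
  · have h1 : iIndepFun (fun (v : V 1) (w : V 1 → ℝ) => w v) (law nu 1) :=
      iIndepFun_infinitePi (P := fun _ : V 1 => nu) (X := fun _ => id) (fun _ => measurable_id)
    have h2 := h1.precomp (ray_inj he)
    intro a b hab
    exact (h2.indepFun hab).comp (φ := fun x => max x (-L)) (ψ := fun x => max x (-L))
      (by fun_prop) (by fun_prop)

theorem T_D1 : S_D1 := by
  refine ⟨nu, nu_prob, nu_pos, nu_sq, fun a => ?_⟩
  set L : ℝ := Real.exp (|a| + 1) with hLd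
  have hL1 : 1 ≤ L := Real.one_le_exp (by positivity)
  have hm : ∫ x, max x (-L) ∂nu < a := by
    have := mean_le hL1
    rw [hLd, Real.log_exp] at this
    have := neg_abs_le a
    linarith
  filter_upwards [slln (Or.inl rfl : (1 : ℤ) = 1 ∨ (1 : ℤ) = -1) L (by linarith),
    slln (Or.inr rfl : (-1 : ℤ) = 1 ∨ (-1 : ℤ) = -1) L (by linarith)] with w h1 h2
  filter_upwards [h1.eventually (gt_mem_nhds hm), h2.eventually (gt_mem_nhds hm),
    eventually_ge_atTop 1] with n h3 h4 hn hLo
  have hn0 : (0 : ℝ) < n := by exact_mod_cast hn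
  rw [div_lt_iff₀ hn0] at h3 h4
  have h5 : ∀ e : ℤ, ∑ k ∈ range n, w (ray e k) ≤ ∑ k ∈ range n, max (w (ray e k)) (-L) :=
    fun e => sum_le_sum fun k _ => le_max_left _ _
  rcases Lo_imp hn hLo with h | h
  · have := h5 1
    linarith
  · have := h5 (-1)
    linarith

end Pool.Agent.W18.GQ
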